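import Pool.Agent.Helper45.Pillai.Basic

/-!
# Pillai primes outside a subgroup of the unit group

A prime `p` is a Pillai prime if `p ∣ n! + 1` and `p ≢ 1 (mod n)` for some `n ≥ 1`.  For every
`m ≥ 3` and every subgroup `H` of the units modulo `m` which does not contain `-1` there are
infinitely many Pillai primes whose residue class is not in `H`.
-/

set_option autoImplicit false

namespace Pool.Agent.Results.MP_6b629c_nt.PillaiClasses

open Pool.Agent.Helper45.Pillai

/-- Infinitely many Pillai primes outside every subgroup which does not contain `-1`. -/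
theorem result (m : ℕ) (hm : 3 ≤ m) (H : Subgroup (ZMod m)ˣ) (hH : -1 ∉ H) :
    {p : ℕ | Pillai p ∧ ∀ u ∈ H, ((u : (ZMod m)ˣ) : ZMod m) ≠ (p : ZMod m)}.Infinite :=
  infinite_outside m hm H hH

end Pool.Agent.Results.MP_6b629c_nt.PillaiClasses
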