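import Pool.Agent.Helper98.PillaiCount.Final

/-!
# A lower bound for the number of Pillai primes up to `x`

A prime `p` is a Pillai prime if `p ∣ n! + 1` and `p ≢ 1 (mod n)` for some `n ≥ 1`.  For all large
`x` there are at least `log x / (768 (log log x) ^ 2)` Pillai primes `p ≤ x`.
-/

set_option autoImplicit false

namespace Pool.Agent.Results.MP_6b629c_nt.PillaiCount

open Pool.Agent.Helper45.Pillai

/-- The number of Pillai primes up to `x` is at least `log x / (768 (log log x) ^ 2)` for all
large `x`. -/
theorem result : ∀ᶠ x : ℝ in Filter.atTop,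
    Real.log x / (768 * Real.log (Real.log x) ^ 2) ≤
      ({p : ℕ | (p : ℝ) ≤ x ∧ Pillai p}.ncard : ℝ) :=
  Pool.Agent.Helper98.PillaiCount.pillai_count

end Pool.Agent.Results.MP_6b629c_nt.PillaiCount
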