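import Pool.Agent.Helper45.Pillai.Basic

/-!
# Pillai primes congruent to one modulo four

A prime `p` is a Pillai prime if `p ∣ n! + 1` and `p ≢ 1 (mod n)` for some `n ≥ 1`.  There are
infinitely many Pillai primes congruent to `1` modulo `4`.
-/

set_option autoImplicit false

namespace Pool.Agent.Results.MP_6b629c_nt.PillaiOneModFour

open Pool.Agent.Helper45.Pillai

/-- Infinitely many Pillai primes congruent to one modulo four. -/
theorem result : {p : ℕ | Pillai p ∧ p % 4 = 1}.Infinite :=
  infinite_one

end Pool.Agent.Results.MP_6b629c_nt.PillaiOneModFour
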